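import Pool.Agent.W587.MX.Stm

set_option autoImplicit false

namespace Pool.Agent.W847.MX

open Set Filter Topology Metric
open Pool.Agent.W587.MX

theorem t3_cnt (hT2 : T2_ROOT) : T3_CNT := by
  classical
  intro f hf hf0 hd
  have hfa : AnalyticOnNhd ℂ f univ := fun z _ => hf.analyticAt z
  have hda : AnalyticOnNhd ℂ (deriv f) univ := hfa.deriv
  have hfn : ∀ᶠ z in 𝓝 (0 : ℂ), f z ≠ 0 := hf.continuous.continuousAt.eventually_ne hf0
  have hG : AnalyticAt ℂ (fun z => z * deriv f z / f z) 0 :=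
    (analyticAt_id.mul (hda 0 (mem_univ _))).div (hfa 0 (mem_univ _)) hf0
  have hG0 : (fun z => z * deriv f z / f z) 0 = 0 := by simp
  have hGn : ¬ ∀ᶠ z in 𝓝 (0 : ℂ), (fun z => z * deriv f z / f z) z = 0 := by
    intro h
    have h1 : ∀ᶠ z in 𝓝[≠] (0 : ℂ), deriv f z = 0 := by
      have h2 : ∀ᶠ z in 𝓝[≠] (0 : ℂ), f z ≠ 0 ∧ z * deriv f z / f z = 0 :=
        (hfn.and h).filter_mono nhdsWithin_le_nhds
      filter_upwards [h2, self_mem_nhdsWithin] with z hz hz0
      have h3 := (div_eq_zero_iff.mp hz.2).resolve_right hz.1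
      exact (mul_eq_zero.mp h3).resolve_left hz0
    have h4 : EqOn (deriv f) 0 univ :=
      hda.eqOn_zero_of_preconnected_of_frequently_eq_zero isPreconnected_univ (mem_univ 0)
        h1.frequently
    obtain ⟨z, hz⟩ := hd
    exact hz (h4 (mem_univ z))
  obtain ⟨e, he, φ, ψ, _, _, _, _, h1, _, h2⟩ := hT2 _ 0 hG hG0 hGn
  obtain ⟨δ, hδ, hall⟩ := Metric.eventually_nhds_iff.mp (h1.and (h2.and hfn))
  refine ⟨e, δ, hδ, ?_⟩
  intro a ha s hs
  have hz : ∀ z ∈ s, ψ (φ z) = z ∧ φ z ^ e = a := by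
    intro z hzs
    obtain ⟨hz1, hz2⟩ := hs z hzs
    obtain ⟨a1, a2, a3⟩ := hall (y := z) (by rw [dist_zero_right]; exact hz1)
    refine ⟨a1, ?_⟩
    rw [← a2]
    show z * deriv f z / f z = a
    rw [hz2, mul_div_assoc, div_self a3, mul_one]
  have hinj : Set.InjOn φ (s : Set ℂ) := by
    intro x hx y hy hxy
    rw [← (hz x hx).1, ← (hz y hy).1, hxy]
  have hsub : s.image φ ⊆ (Polynomial.nthRoots e a).toFinset := by
    intro y hy
    obtain ⟨x, hx, rfl⟩ := Finset.mem_image.mp hy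
    rw [Multiset.mem_toFinset, Polynomial.mem_nthRoots (by omega)]
    exact (hz x hx).2
  calc s.card = (s.image φ).card := (Finset.card_image_of_injOn hinj).symm
    _ ≤ (Polynomial.nthRoots e a).toFinset.card := Finset.card_le_card hsub
    _ ≤ Multiset.card (Polynomial.nthRoots e a) := Multiset.toFinset_card_le _
    _ ≤ e := Polynomial.card_nthRoots e a

end Pool.Agent.W847.MX
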